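import Pool.Agent.Q43.GA.Key

set_option autoImplicit false

namespace Pool.Agent.Q43.GA

open Finset

theorem val_coprime {W p : ℕ} (hp : p.Prime) (hpW : p ∣ W) (m : ℤ × ℤ) : ¬ p ∣ val W m := by
  intro h
  rw [dvd_val] at h
  have h1 : (p : ℤ) ∣ W := by exact_mod_cast hpW
  have h2 : (p : ℤ) ∣ 1 := by
    have e : (1 : ℤ) = ((1 + W * m.1) ^ 2 + (W * m.2) ^ 2) -
        W * (2 * m.1 + W * m.1 ^ 2 + W * m.2 ^ 2) := by ring
    rw [e]
    exact dvd_sub h (Dvd.dvd.mul_right h1 _)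
  have h3 : p ∣ 1 := by exact_mod_cast h2
  exact hp.one_lt.ne' (Nat.dvd_one.1 h3)

open Classical in
theorem big_count (T X W M : ℕ) (a b : ℤ) (hT : 2 ≤ T) (hTX : T ≤ X)
    (hW1 : ∀ p : ℕ, p.Prime → p ≤ T → p ∣ W) (hW2 : ∀ p : ℕ, p.Prime → T < p → ¬ p ∣ W)
    (Λ : ℝ) (hΛ : 0 < Λ) (hval : ∀ m ∈ box a b M, Λ ≤ Real.log (val W m)) (Sb : ℝ)
    (hS : ∑ p ∈ PP T X, Real.log p * (#{m ∈ box a b M | p ∣ val W m} : ℝ) ≤ Sb) :
    (M : ℝ) ^ 2 - 54 * (M : ℝ) ^ 2 / T - 6 * Nat.primeCounting X - Sb / Λ ≤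
      #{m ∈ box a b M | ∃ p : ℕ, p.Prime ∧ X < p ∧ p ∣ val W m} := by
  classical
  set Bg := {m ∈ box a b M | ∃ p : ℕ, p.Prime ∧ X < p ∧ p ∣ val W m} with hBg
  set E := {m ∈ box a b M | ∃ p ∈ PP T X, p ^ 2 ∣ val W m} with hE
  set G := {m ∈ box a b M | (¬ ∃ p ∈ PP T X, p ^ 2 ∣ val W m) ∧
    ¬ ∃ p : ℕ, p.Prime ∧ X < p ∧ p ∣ val W m} with hG
  have hT0 : (0 : ℝ) < T := by exact_mod_cast (by omega : 0 < T)
  have hcover : box a b M ⊆ Bg ∪ (E ∪ G) := by
    intro m hm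
    by_cases h1 : ∃ p : ℕ, p.Prime ∧ X < p ∧ p ∣ val W m
    · exact mem_union_left _ (mem_filter.2 ⟨hm, h1⟩)
    · apply mem_union_right
      by_cases h2 : ∃ p ∈ PP T X, p ^ 2 ∣ val W m
      · exact mem_union_left _ (mem_filter.2 ⟨hm, h2⟩)
      · exact mem_union_right _ (mem_filter.2 ⟨hm, h2, h1⟩)
  have hcard : (M : ℝ) ^ 2 ≤ #Bg + #E + #G := by
    have h1 := (card_le_card hcover).trans (card_union_le _ _)
    have h2 := card_union_le E G
    rw [card_box] at h1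
    have h3 : M ^ 2 ≤ #Bg + #E + #G := by omega
    exact_mod_cast h3
  -- the exceptional set
  have hEc : (#E : ℝ) ≤ 54 * (M : ℝ) ^ 2 / T + 6 * Nat.primeCounting X := by
    have h1 : E ⊆ (PP T X).biUnion (fun p =>
        {m ∈ box a b M | (p : ℤ) ^ 2 ∣ (1 + W * m.1) ^ 2 + (W * m.2) ^ 2}) := by
      intro m hm
      rw [hE, mem_filter] at hm
      obtain ⟨hm1, p, hp, hpd⟩ := hm
      rw [mem_biUnion]
      refine ⟨p, hp, mem_filter.2 ⟨hm1, ?_⟩⟩
      rw [dvd_val] at hpd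
      exact_mod_cast hpd
    have h2 : (#E : ℝ) ≤ ∑ p ∈ PP T X, (54 * (M : ℝ) ^ 2 * ((p : ℝ) ^ 2)⁻¹ + 6) := by
      calc (#E : ℝ) ≤ ((∑ p ∈ PP T X,
          #{m ∈ box a b M | (p : ℤ) ^ 2 ∣ (1 + W * m.1) ^ 2 + (W * m.2) ^ 2} : ℕ) : ℝ) := by
            exact_mod_cast (card_le_card h1).trans card_biUnion_le
        _ = ∑ p ∈ PP T X,
          (#{m ∈ box a b M | (p : ℤ) ^ 2 ∣ (1 + W * m.1) ^ 2 + (W * m.2) ^ 2} : ℝ) := by push_cast; rfl
        _ ≤ _ := by
            apply sum_le_sum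
            intro p hp
            rw [mem_PP] at hp
            have hp3 : 3 ≤ p := by omega
            have h3 := count_sq hp.2.1 (by omega) W (hW2 p hp.2.1 hp.2.2) a b M
            have h4 : (#{m ∈ box a b M | (p : ℤ) ^ 2 ∣ (1 + W * m.1) ^ 2 + (W * m.2) ^ 2} : ℝ) ≤
                3 * (((M / (p / 2) : ℕ) : ℝ) + 1) ^ 2 := by exact_mod_cast h3
            refine h4.trans ?_
            have hp0 : (0 : ℝ) < p := by exact_mod_cast (by omega : 0 < p)
            have h5 : ((M / (p / 2) : ℕ) : ℝ) ≤ 3 * M / p := by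
              refine (@Nat.cast_div_le ℝ _ _ _ M (p / 2)).trans ?_
              have h6 : (0 : ℝ) < ((p / 2 : ℕ) : ℝ) := by exact_mod_cast (by omega : 0 < p / 2)
              rw [div_le_div_iff₀ h6 hp0]
              have h7 : (p : ℝ) ≤ 3 * ((p / 2 : ℕ) : ℝ) := by exact_mod_cast (by omega : p ≤ 3 * (p / 2))
              have h8 : (0 : ℝ) ≤ M := Nat.cast_nonneg _
              nlinarith
            have h9 : (0 : ℝ) ≤ ((M / (p / 2) : ℕ) : ℝ) := Nat.cast_nonneg _
            have h10 : (((M / (p / 2) : ℕ) : ℝ) + 1) ^ 2 ≤ (3 * M / p + 1) ^ 2 :=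
              pow_le_pow_left₀ (by positivity) (by linarith) 2
            have h11 : (3 * (M : ℝ) / p + 1) ^ 2 ≤ 2 * (3 * M / p) ^ 2 + 2 := by
              nlinarith [sq_nonneg (3 * (M : ℝ) / p - 1)]
            have h12 : (3 * (M : ℝ) / p) ^ 2 = 9 * (M : ℝ) ^ 2 * ((p : ℝ) ^ 2)⁻¹ := by
              rw [div_pow, div_eq_mul_inv]; ring
            rw [h12] at h11
            linarith
    refine h2.trans ?_
    rw [sum_add_distrib, ← mul_sum, sum_const, nsmul_eq_mul]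
    have h3 : ∑ p ∈ PP T X, ((p : ℝ) ^ 2)⁻¹ ≤ 1 / T := by
      calc ∑ p ∈ PP T X, ((p : ℝ) ^ 2)⁻¹ ≤ ∑ p ∈ Ioc T X, ((p : ℝ) ^ 2)⁻¹ := by
            apply sum_le_sum_of_subset_of_nonneg
            · intro p hp
              rw [mem_PP] at hp
              exact mem_Ioc.2 ⟨hp.2.2, hp.1⟩
            · intro p _ _; positivity
        _ ≤ (T : ℝ)⁻¹ - (X : ℝ)⁻¹ := sum_Ioc_inv_sq_le_sub (by omega) hTX
        _ ≤ 1 / T := by
            have : 0 ≤ (X : ℝ)⁻¹ := by positivity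
            rw [one_div]; linarith
    have h4 : (#(PP T X) : ℝ) ≤ Nat.primeCounting X := by
      rw [← Nat.primesLE_card_eq_primeCounting]
      exact_mod_cast card_le_card (fun p hp => by
        rw [mem_PP] at hp
        rw [Nat.mem_primesLE]
        exact ⟨hp.1, hp.2.1⟩)
    have h5 : 54 * (M : ℝ) ^ 2 * ∑ p ∈ PP T X, ((p : ℝ) ^ 2)⁻¹ ≤ 54 * (M : ℝ) ^ 2 * (1 / T) :=
      mul_le_mul_of_nonneg_left h3 (by positivity)
    have h6 : 54 * (M : ℝ) ^ 2 * (1 / T) = 54 * (M : ℝ) ^ 2 / T := by ring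
    linarith
  -- the good set
  have hGc : (#G : ℝ) ≤ Sb / Λ := by
    rw [le_div_iff₀ hΛ]
    refine le_trans ?_ hS
    have h1 : ∀ m ∈ G, Real.log (val W m) = ∑ p ∈ PP T X, if p ∣ val W m then Real.log p else 0 := by
      intro m hm
      rw [hG, mem_filter] at hm
      obtain ⟨hmB, hm1, hm2⟩ := hm
      have hv0 : val W m ≠ 0 := by
        intro h0
        have := hval m hmB
        rw [h0] at this
        simp at this
        linarith
      have hpf : ∀ p : ℕ, p.Prime → p ∣ val W m → p ∈ PP T X := by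
        intro p hp hpd
        rw [mem_PP]
        refine ⟨?_, hp, ?_⟩
        · by_contra hlt
          exact hm2 ⟨p, hp, by omega, hpd⟩
        · by_contra hlt
          exact val_coprime hp (hW1 p hp (by omega)) m hpd
      have hsq : Squarefree (val W m) := by
        rw [Nat.squarefree_iff_prime_squarefree]
        intro p hp hpp
        exact hm1 ⟨p, hpf p hp ((Dvd.intro p rfl).trans hpp), by rw [sq]; exact hpp⟩
      have e1 : (val W m : ℝ) = ∏ p ∈ (val W m).primeFactors, (p : ℝ) := by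
        conv_lhs => rw [← Nat.prod_primeFactors_of_squarefree hsq]
        push_cast; rfl
      rw [e1, Real.log_prod (fun p hp => by
        have := (Nat.mem_primeFactors.1 hp).1.ne_zero
        exact_mod_cast this), ← sum_filter]
      congr 1
      ext p
      rw [Nat.mem_primeFactors, mem_filter]
      exact ⟨fun h => ⟨hpf p h.1 h.2.1, h.2.1⟩, fun h => ⟨(mem_PP.1 h.1).2.1, h.2, hv0⟩⟩
    calc (#G : ℝ) * Λ = ∑ m ∈ G, Λ := by rw [sum_const, nsmul_eq_mul]
      _ ≤ ∑ m ∈ G, Real.log (val W m) := by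
          apply sum_le_sum
          intro m hm
          exact hval m (mem_filter.1 hm).1
      _ = ∑ m ∈ G, ∑ p ∈ PP T X, (if p ∣ val W m then Real.log p else 0) := sum_congr rfl h1
      _ ≤ ∑ m ∈ box a b M, ∑ p ∈ PP T X, (if p ∣ val W m then Real.log p else 0) := by
          apply sum_le_sum_of_subset_of_nonneg (filter_subset _ _)
          intro m _ _
          apply sum_nonneg
          intro p _
          split_ifs
          · exact Real.log_natCast_nonneg p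
          · exact le_rfl
      _ = ∑ p ∈ PP T X, ∑ m ∈ box a b M, (if p ∣ val W m then Real.log p else 0) := sum_comm
      _ = ∑ p ∈ PP T X, Real.log p * (#{m ∈ box a b M | p ∣ val W m} : ℝ) := by
          apply sum_congr rfl
          intro p _
          rw [← sum_filter, sum_const, nsmul_eq_mul, mul_comm]
  linarith

end Pool.Agent.Q43.GA
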