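import Mathlib

set_option autoImplicit false

namespace Pool.Agent.Q43.GA

open Finset

/-- An `M × M` box. -/
noncomputable def box (a b : ℤ) (M : ℕ) : Finset (ℤ × ℤ) := Ico a (a + M) ×ˢ Ico b (b + M)

theorem mem_box {a b : ℤ} {M : ℕ} {m : ℤ × ℤ} :
    m ∈ box a b M ↔ (a ≤ m.1 ∧ m.1 < a + M) ∧ (b ≤ m.2 ∧ m.2 < b + M) := by
  unfold box
  rw [mem_product, mem_Ico, mem_Ico]

theorem card_box (a b : ℤ) (M : ℕ) : #(box a b M) = M ^ 2 := by
  unfold box
  rw [card_product, Int.card_Ico, Int.card_Ico]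
  simp [sq]

/-- small representatives -/
theorem small_rep {p : ℕ} (hp : p.Prime) (hp4 : p % 4 = 1) : ∃ ι : ZMod p, ι ^ 2 = -1 ∧
    ∀ c : ZMod p, ∃ r1 r2 : ℤ, |r1| ≤ Nat.sqrt p ∧ |r2| ≤ Nat.sqrt p ∧
      ((r1 : ZMod p) - ι * r2) = c := by
  have := Fact.mk hp
  obtain ⟨a, b, hab⟩ := Nat.Prime.sq_add_sq (p := p) (by omega)
  have hb0 : (b : ZMod p) ≠ 0 := by
    intro hb
    rw [ZMod.natCast_eq_zero_iff] at hb
    have ha : p ∣ a := by
      have h1 : p ∣ a ^ 2 := by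
        have h2 : p ∣ a ^ 2 + b ^ 2 := by rw [hab]
        have h3 : p ∣ b ^ 2 := dvd_pow hb (by norm_num)
        exact (Nat.dvd_add_left h3).1 h2
      exact hp.dvd_of_dvd_pow h1
    obtain ⟨a', rfl⟩ := ha
    obtain ⟨b', rfl⟩ := hb
    have h1 : p ^ 2 ∣ p := ⟨a' ^ 2 + b' ^ 2, hab.symm.trans (by ring)⟩
    have h2 := Nat.le_of_dvd hp.pos h1
    have h3 := hp.two_le
    nlinarith
  set ι : ZMod p := (a : ZMod p) / b with hι
  have hsum : (a : ZMod p) ^ 2 + (b : ZMod p) ^ 2 = 0 := by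
    have : ((a ^ 2 + b ^ 2 : ℕ) : ZMod p) = 0 := by rw [hab]; simp
    exact_mod_cast this
  have hι2 : ι ^ 2 = -1 := by
    rw [hι, div_pow, div_eq_iff (pow_ne_zero 2 hb0)]
    linear_combination hsum
  refine ⟨ι, hι2, fun c => ?_⟩
  let φ : GaussianInt → ZMod p := fun z => (z.re : ZMod p) - ι * z.im
  have hφmul : ∀ z w : GaussianInt, φ (z * w) = φ z * φ w := by
    intro z w
    simp only [φ, Zsqrtd.re_mul, Zsqrtd.im_mul]
    push_cast
    linear_combination (-(z.im : ZMod p) * w.im) * hι2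
  have hφsub : ∀ z w : GaussianInt, φ (z - w) = φ z - φ w := by
    intro z w
    simp only [φ, Zsqrtd.re_sub, Zsqrtd.im_sub]
    push_cast
    ring
  set π : GaussianInt := ⟨a, b⟩ with hπ
  have hφπ : φ π = 0 := by
    simp only [φ, hπ, hι]
    push_cast
    rw [div_mul_cancel₀ _ hb0]; ring
  have hπ0 : π ≠ 0 := by
    intro h
    have : π.im = 0 := by rw [h]; rfl
    simp only [hπ] at this
    apply hb0
    have h2 : b = 0 := by exact_mod_cast this
    rw [h2]; simp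
  have hnormπ : π.norm = p := by
    rw [Zsqrtd.norm_def, hπ]
    simp only
    have : ((a ^ 2 + b ^ 2 : ℕ) : ℤ) = p := by exact_mod_cast hab
    push_cast at this
    linarith
  set x : GaussianInt := ((c.val : ℕ) : GaussianInt) with hx
  set r : GaussianInt := x % π with hr
  have hrx : r = x - π * (x / π) := by
    rw [hr]
    have := EuclideanDomain.div_add_mod x π
    linear_combination this
  have hφr : φ r = c := by
    rw [hrx, hφsub, hφmul, hφπ, zero_mul, sub_zero]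
    simp only [φ, hx, Zsqrtd.re_natCast, Zsqrtd.im_natCast]
    push_cast
    rw [ZMod.natCast_zmod_val]; ring
  have hnr : r.norm < p := by
    have h1 := GaussianInt.norm_mod_lt x hπ0
    rw [hnormπ] at h1
    exact h1
  rw [Zsqrtd.norm_def] at hnr
  have hs : ∀ t : ℤ, t * t < p → |t| ≤ Nat.sqrt p := by
    intro t ht
    have h1 : t.natAbs * t.natAbs < p := by
      have : ((t.natAbs * t.natAbs : ℕ) : ℤ) < p := by
        push_cast
        rw [abs_mul_abs_self]; exact ht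
      exact_mod_cast this
    have h2 : t.natAbs ≤ Nat.sqrt p := Nat.le_sqrt.2 h1.le
    rw [Int.abs_eq_natAbs]
    exact_mod_cast h2
  refine ⟨r.re, r.im, hs _ ?_, hs _ ?_, hφr⟩
  · nlinarith [mul_self_nonneg r.im]
  · nlinarith [mul_self_nonneg r.re]

/-- area bound -/
theorem pack {p : ℕ} (hp : p.Prime) (ι : ZMod p)
    (hrep : ∀ c : ZMod p, ∃ r1 r2 : ℤ, |r1| ≤ Nat.sqrt p ∧ |r2| ≤ Nat.sqrt p ∧
      ((r1 : ZMod p) - ι * r2) = c) (W : ℕ) (hW : (W : ZMod p) ≠ 0) (a b : ℤ) (M : ℕ) :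
    #{m ∈ box a b M | (1 + W * m.1 : ZMod p) = ι * (W * m.2)} * p ≤ (M + 2 * Nat.sqrt p) ^ 2 := by
  classical
  have := Fact.mk hp
  choose r1 r2 h1 h2 h3 using hrep
  set s := Nat.sqrt p with hs
  set S := {m ∈ box a b M | (1 + W * m.1 : ZMod p) = ι * (W * m.2)} with hS
  have hcard : #(S ×ˢ (univ : Finset (ZMod p))) = #S * p := by
    rw [card_product, card_univ, ZMod.card]
  rw [← hcard]
  have hbox : #(Ico (a - s) (a + M + s) ×ˢ Ico (b - s) (b + M + s)) = (M + 2 * s) ^ 2 := by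
    rw [card_product, Int.card_Ico, Int.card_Ico]
    have e1 : (a + M + s - (a - s)).toNat = M + 2 * s := by omega
    have e2 : (b + M + s - (b - s)).toNat = M + 2 * s := by omega
    rw [e1, e2]; ring
  rw [← hbox]
  apply card_le_card_of_injOn (fun z => (z.1.1 + r1 z.2, z.1.2 + r2 z.2))
  · rintro ⟨m, c⟩ hz
    rw [mem_coe, mem_product, hS, mem_filter, mem_box] at hz
    rw [mem_coe, mem_product, mem_Ico, mem_Ico]
    have e1 := abs_le.1 (h1 c)
    have e2 := abs_le.1 (h2 c)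
    simp only at hz ⊢
    omega
  · rintro ⟨m, c⟩ hz ⟨m', c'⟩ hz' heq
    rw [mem_coe, mem_product, hS, mem_filter] at hz hz'
    simp only [Prod.mk.injEq] at heq hz hz'
    obtain ⟨e1, e2⟩ := heq
    have e1' : ((m.1 + r1 c : ℤ) : ZMod p) = ((m'.1 + r1 c' : ℤ) : ZMod p) := by rw [e1]
    have e2' : ((m.2 + r2 c : ℤ) : ZMod p) = ((m'.2 + r2 c' : ℤ) : ZMod p) := by rw [e2]
    push_cast at e1' e2'
    have k1 := hz.1.2
    have k2 := hz'.1.2
    have k3 := h3 c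
    have k4 := h3 c'
    have hc : (W : ZMod p) * c = W * c' := by
      rw [← k3, ← k4]
      linear_combination (W : ZMod p) * e1' - ι * W * e2' - k1 + k2
    have hcc : c = c' := mul_left_cancel₀ hW hc
    subst hcc
    have : m = m' := Prod.ext (by linarith) (by linarith)
    rw [this]

/-- number of box elements whose value is divisible by a prime `p ≡ 1 mod 4` -/
theorem count1 {p : ℕ} (hp : p.Prime) (hp4 : p % 4 = 1) (W : ℕ) (hW : ¬ p ∣ W) (a b : ℤ) (M : ℕ) :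
    (#{m ∈ box a b M | (p : ℤ) ∣ (1 + W * m.1) ^ 2 + (W * m.2) ^ 2} : ℝ) ≤
      2 * (M + 2 * Real.sqrt p) ^ 2 / p := by
  classical
  have := Fact.mk hp
  have hW' : (W : ZMod p) ≠ 0 := by rwa [Ne, ZMod.natCast_eq_zero_iff]
  obtain ⟨ι, hι, hrep⟩ := small_rep hp hp4
  have hrep' : ∀ c : ZMod p, ∃ r1 r2 : ℤ, |r1| ≤ Nat.sqrt p ∧ |r2| ≤ Nat.sqrt p ∧
      ((r1 : ZMod p) - (-ι) * r2) = c := by
    intro c
    obtain ⟨r1, r2, h1, h2, h3⟩ := hrep c
    refine ⟨r1, -r2, h1, by rwa [abs_neg], ?_⟩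
    rw [← h3]; push_cast; ring
  have b1 := pack hp ι hrep W hW' a b M
  have b2 := pack hp (-ι) hrep' W hW' a b M
  have hsub : {m ∈ box a b M | (p : ℤ) ∣ (1 + W * m.1) ^ 2 + (W * m.2) ^ 2} ⊆
      {m ∈ box a b M | (1 + W * m.1 : ZMod p) = ι * (W * m.2)} ∪
      {m ∈ box a b M | (1 + W * m.1 : ZMod p) = (-ι) * (W * m.2)} := by
    intro m hm
    rw [mem_filter] at hm
    have h1 : (((1 + W * m.1) ^ 2 + (W * m.2) ^ 2 : ℤ) : ZMod p) = 0 :=
      (ZMod.intCast_zmod_eq_zero_iff_dvd _ _).2 hm.2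
    push_cast at h1
    have h2 : ((1 + W * m.1 : ZMod p) - ι * (W * m.2)) * ((1 + W * m.1) + ι * (W * m.2)) = 0 := by
      linear_combination h1 - (W * (m.2 : ZMod p)) ^ 2 * hι
    rw [mem_union, mem_filter, mem_filter]
    rcases mul_eq_zero.1 h2 with h | h
    · left; exact ⟨hm.1, sub_eq_zero.1 h⟩
    · right; exact ⟨hm.1, by rw [neg_mul]; exact eq_neg_of_add_eq_zero_left h⟩
  have hc : (#{m ∈ box a b M | (p : ℤ) ∣ (1 + W * m.1) ^ 2 + (W * m.2) ^ 2}) * p ≤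
      2 * (M + 2 * Nat.sqrt p) ^ 2 := by
    have := (card_le_card hsub).trans (card_union_le _ _)
    nlinarith [hp.pos]
  have hp0 : (0 : ℝ) < p := by exact_mod_cast hp.pos
  rw [le_div_iff₀ hp0]
  have hc' : ((#{m ∈ box a b M | (p : ℤ) ∣ (1 + W * m.1) ^ 2 + (W * m.2) ^ 2} : ℝ)) * p ≤
      2 * (M + 2 * (Nat.sqrt p : ℝ)) ^ 2 := by exact_mod_cast hc
  refine hc'.trans ?_
  have hs : (Nat.sqrt p : ℝ) ≤ Real.sqrt p := by
    apply Real.le_sqrt_of_sq_le
    exact_mod_cast Nat.sqrt_le' p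
  have h0 : (0 : ℝ) ≤ (M : ℝ) + 2 * (Nat.sqrt p : ℝ) := by positivity
  have := pow_le_pow_left₀ h0 (show (M : ℝ) + 2 * (Nat.sqrt p : ℝ) ≤ M + 2 * Real.sqrt p by linarith) 2
  linarith

/-- spacing bound in cells of side `s` -/
theorem cells {s : ℕ} (hs : 0 < s) (a b : ℤ) (M : ℕ) (S : Finset (ℤ × ℤ)) (hS : S ⊆ box a b M)
    (hsep : ∀ m ∈ S, ∀ m' ∈ S, |m.1 - m'.1| < s → |m.2 - m'.2| < s → m = m') :
    #S ≤ (M / s + 1) ^ 2 := by
  have hc : #(range (M / s + 1) ×ˢ range (M / s + 1)) = (M / s + 1) ^ 2 := by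
    rw [card_product, card_range]; ring
  rw [← hc]
  apply card_le_card_of_injOn (fun m => ((m.1 - a).toNat / s, (m.2 - b).toNat / s))
  · intro m hm
    have h1 := mem_box.1 (hS hm)
    rw [mem_coe, mem_product, mem_range, mem_range]
    constructor
    · apply Nat.lt_succ_of_le
      apply Nat.div_le_div_right
      omega
    · apply Nat.lt_succ_of_le
      apply Nat.div_le_div_right
      omega
  · intro m hm m' hm' heq
    have h1 := mem_box.1 (hS hm)
    have h2 := mem_box.1 (hS hm')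
    simp only [Prod.mk.injEq] at heq
    have key : ∀ x y : ℕ, x / s = y / s → |(x : ℤ) - y| < s := by
      intro x y hxy
      have e1 := Nat.div_add_mod x s
      have e2 := Nat.div_add_mod y s
      have e3 := Nat.mod_lt x hs
      have e4 := Nat.mod_lt y hs
      rw [hxy] at e1
      rw [abs_lt]
      constructor <;> omega
    apply hsep m hm m' hm'
    · have := key _ _ heq.1
      rw [Int.toNat_of_nonneg (by omega), Int.toNat_of_nonneg (by omega)] at this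
      have e : m.1 - a - (m'.1 - a) = m.1 - m'.1 := by ring
      rwa [e] at this
    · have := key _ _ heq.2
      rw [Int.toNat_of_nonneg (by omega), Int.toNat_of_nonneg (by omega)] at this
      have e : m.2 - b - (m'.2 - b) = m.2 - m'.2 := by ring
      rwa [e] at this

theorem dvd_both {p : ℕ} (hp : p.Prime) (hp4 : p % 4 = 3) {x y : ℤ} (h : (p : ℤ) ∣ x ^ 2 + y ^ 2) :
    (p : ℤ) ∣ x ∧ (p : ℤ) ∣ y := by
  have := Fact.mk hp
  have h1 : (x : ZMod p) ^ 2 + (y : ZMod p) ^ 2 = 0 := by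
    have := (ZMod.intCast_zmod_eq_zero_iff_dvd _ _).2 h
    exact_mod_cast this
  have hy : (y : ZMod p) = 0 := by
    by_contra hy
    exact ZMod.mod_four_ne_three_of_sq_eq_neg_sq' hy (eq_neg_of_add_eq_zero_left h1) hp4
  have hx : (x : ZMod p) = 0 := by
    rw [hy] at h1
    simpa using h1
  exact ⟨(ZMod.intCast_zmod_eq_zero_iff_dvd _ _).1 hx, (ZMod.intCast_zmod_eq_zero_iff_dvd _ _).1 hy⟩

theorem dvd_of_mulW {p W : ℕ} (hp : p.Prime) (hW : ¬ p ∣ W) {t : ℤ} (h : (p : ℤ) ∣ W * t) :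
    (p : ℤ) ∣ t := by
  rcases (Nat.prime_iff_prime_int.1 hp).dvd_or_dvd h with h1 | h1
  · exact absurd (by exact_mod_cast h1) hW
  · exact h1

theorem eq_of_dvd_lt {p : ℕ} {x y : ℤ} (h : (p : ℤ) ∣ x - y) (hlt : |x - y| < p) : x = y := by
  have := Int.eq_zero_of_abs_lt_dvd h hlt
  linarith

/-- number of box elements whose value is divisible by a prime `p ≡ 3 mod 4` -/
theorem count3 {p : ℕ} (hp : p.Prime) (hp4 : p % 4 = 3) (W : ℕ) (hW : ¬ p ∣ W) (a b : ℤ) (M : ℕ) :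
    (#{m ∈ box a b M | (p : ℤ) ∣ (1 + W * m.1) ^ 2 + (W * m.2) ^ 2} : ℝ) ≤
      (M / p + 1) ^ 2 := by
  have h := cells hp.pos a b M {m ∈ box a b M | (p : ℤ) ∣ (1 + W * m.1) ^ 2 + (W * m.2) ^ 2}
    (filter_subset _ _) (by
      intro m hm m' hm' h1 h2
      rw [mem_filter] at hm hm'
      obtain ⟨e1, e2⟩ := dvd_both hp hp4 hm.2
      obtain ⟨e3, e4⟩ := dvd_both hp hp4 hm'.2
      have d1 : (p : ℤ) ∣ m.1 - m'.1 := by
        apply dvd_of_mulW hp hW
        have := dvd_sub e1 e3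
        have e : (1 + W * m.1 : ℤ) - (1 + W * m'.1) = W * (m.1 - m'.1) := by ring
        rwa [e] at this
      have d2 : (p : ℤ) ∣ m.2 - m'.2 := by
        apply dvd_of_mulW hp hW
        have := dvd_sub e2 e4
        have e : (W * m.2 : ℤ) - W * m'.2 = W * (m.2 - m'.2) := by ring
        rwa [e] at this
      exact Prod.ext (eq_of_dvd_lt d1 h1) (eq_of_dvd_lt d2 h2))
  have h2 : (#{m ∈ box a b M | (p : ℤ) ∣ (1 + W * m.1) ^ 2 + (W * m.2) ^ 2} : ℝ) ≤
      (((M / p : ℕ) : ℝ) + 1) ^ 2 := by exact_mod_cast h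
  refine h2.trans ?_
  apply pow_le_pow_left₀ (by positivity)
  have := @Nat.cast_div_le ℝ _ _ _ M p
  linarith

/-- sets all of whose differences have norm divisible by `p ^ 2` -/
theorem cellsq {p : ℕ} (hp : p.Prime) (hp2 : p ≠ 2) (a b : ℤ) (M : ℕ) (S : Finset (ℤ × ℤ))
    (hS : S ⊆ box a b M)
    (hsep : ∀ m ∈ S, ∀ m' ∈ S, (p : ℤ) ^ 2 ∣ (m.1 - m'.1) ^ 2 + (m.2 - m'.2) ^ 2) :
    #S ≤ (M / (p / 2) + 1) ^ 2 := by
  have hp3 : 3 ≤ p := by
    have := hp.two_le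
    omega
  apply cells (by omega) a b M S hS
  intro m hm m' hm' h1 h2
  have hd := hsep m hm m' hm'
  set x := m.1 - m'.1 with hx
  set y := m.2 - m'.2 with hy
  set s : ℤ := ((p / 2 : ℕ) : ℤ) with hs
  have hs2 : 2 * s ≤ p := by
    rw [hs]
    have : 2 * (p / 2) ≤ p := Nat.mul_div_le p 2
    exact_mod_cast this
  have hx2 : x ^ 2 < s ^ 2 := by
    rw [← sq_abs x]
    have := abs_nonneg x
    nlinarith
  have hy2 : y ^ 2 < s ^ 2 := by
    rw [← sq_abs y]
    have := abs_nonneg y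
    nlinarith
  have hs0 : 0 < s := by
    have := abs_nonneg x
    linarith
  have hlt : x ^ 2 + y ^ 2 < (p : ℤ) ^ 2 := by nlinarith
  have h0 : x ^ 2 + y ^ 2 = 0 := by
    have hnn : 0 ≤ x ^ 2 + y ^ 2 := by positivity
    exact Int.eq_zero_of_dvd_of_nonneg_of_lt hnn hlt hd
  have hx0 : x = 0 := by nlinarith [sq_nonneg x, sq_nonneg y]
  have hy0 : y = 0 := by nlinarith [sq_nonneg x, sq_nonneg y]
  exact Prod.ext (by linarith) (by linarith)

end Pool.Agent.Q43.GA
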