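import Pool.Agent.Q43.GA.KeyAsym

set_option autoImplicit false

namespace Pool.Agent.Q43.GA

open Finset Filter

/-- norm of a pair -/
def nrm (z : ℤ × ℤ) : ℕ := (z.1 ^ 2 + z.2 ^ 2).natAbs

theorem nrm_cast (z : ℤ × ℤ) : (nrm z : ℤ) = z.1 ^ 2 + z.2 ^ 2 := by
  unfold nrm
  exact Int.natAbs_of_nonneg (by positivity)

theorem class_count {p : ℕ} (hp : 0 < p) (a : ℤ) (L : ℕ) (c : ℤ) :
    #{x ∈ Ico a (a + L) | (p : ℤ) ∣ x - c} ≤ L / p + 1 := by
  rw [← card_range (L / p + 1)]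
  apply card_le_card_of_injOn (fun x => (x - a).toNat / p)
  · intro x hx
    rw [mem_coe, mem_filter, mem_Ico] at hx
    rw [mem_coe, mem_range]
    apply Nat.lt_succ_of_le
    apply Nat.div_le_div_right
    omega
  · intro x hx y hy hxy
    rw [mem_coe, mem_filter, mem_Ico] at hx hy
    simp only at hxy
    have hd : (p : ℤ) ∣ x - y := by
      have := dvd_sub hx.2 hy.2
      have e : x - c - (y - c) = x - y := by ring
      rwa [e] at this
    have e1 := Nat.div_add_mod (x - a).toNat p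
    have e2 := Nat.div_add_mod (y - a).toNat p
    have e3 := Nat.mod_lt (x - a).toNat hp
    have e4 := Nat.mod_lt (y - a).toNat hp
    rw [hxy] at e1
    apply eq_of_dvd_lt hd
    rw [abs_lt]
    constructor <;> omega

theorem row_count {p : ℕ} (hp : p.Prime) (a : ℤ) (L : ℕ) (y : ℤ) :
    #{x ∈ Ico a (a + L) | (p : ℤ) ∣ x ^ 2 + y ^ 2} ≤ 2 * (L / p + 1) := by
  classical
  by_cases h : ∃ x0 ∈ Ico a (a + L), (p : ℤ) ∣ x0 ^ 2 + y ^ 2
  · obtain ⟨x0, _, h0⟩ := h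
    have hsub : {x ∈ Ico a (a + L) | (p : ℤ) ∣ x ^ 2 + y ^ 2} ⊆
        {x ∈ Ico a (a + L) | (p : ℤ) ∣ x - x0} ∪ {x ∈ Ico a (a + L) | (p : ℤ) ∣ x - (-x0)} := by
      intro x hx
      rw [mem_filter] at hx
      have h1 := dvd_sub hx.2 h0
      have e : x ^ 2 + y ^ 2 - (x0 ^ 2 + y ^ 2) = (x - x0) * (x - (-x0)) := by ring
      rw [e] at h1
      rcases (Nat.prime_iff_prime_int.1 hp).dvd_or_dvd h1 with h2 | h2
      · exact mem_union_left _ (mem_filter.2 ⟨hx.1, h2⟩)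
      · exact mem_union_right _ (mem_filter.2 ⟨hx.1, h2⟩)
    have c1 := class_count hp.pos a L x0
    have c2 := class_count hp.pos a L (-x0)
    have c3 := (card_le_card hsub).trans (card_union_le _ _)
    omega
  · push Not at h
    rw [filter_eq_empty_iff.2 fun x hx => h x hx]
    simp

/-- number of elements of the shifted square whose norm is divisible by `p` -/
theorem phi_count {p : ℕ} (hp : p.Prime) (ε : ℝ) (M : ℕ) :
    (#{z ∈ Phi0 ε M | p ∣ nrm z} : ℝ) ≤ 8 * (M : ℝ) ^ 2 / p + 4 * M := by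
  classical
  set A : ℤ := ⌊(M : ℝ) ^ (1 + ε)⌋ with hA
  have h1 : #{z ∈ Phi0 ε M | p ∣ nrm z} ≤ (2 * M) * (2 * ((2 * M) / p + 1)) := by
    have hmap : ∀ z ∈ {z ∈ Phi0 ε M | p ∣ nrm z}, z.2 ∈ Ico (-(M : ℤ)) M := by
      intro z hz
      rw [mem_filter, mem_Phi0] at hz
      rw [mem_Ico]
      omega
    rw [card_eq_sum_card_fiberwise hmap]
    have hc : #(Ico (-(M : ℤ)) M) = 2 * M := by
      rw [Int.card_Ico]; omega
    calc ∑ y ∈ Ico (-(M : ℤ)) M, #{z ∈ {z ∈ Phi0 ε M | p ∣ nrm z} | z.2 = y}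
        ≤ ∑ y ∈ Ico (-(M : ℤ)) M, 2 * ((2 * M) / p + 1) := by
          apply sum_le_sum
          intro y _
          refine le_trans ?_ (row_count hp (A - M) (2 * M) y)
          apply card_le_card_of_injOn (fun z => z.1)
          · intro z hz
            rw [mem_coe, mem_filter, mem_filter, mem_Phi0] at hz
            obtain ⟨⟨⟨hz1, _⟩, hz3⟩, hz4⟩ := hz
            simp only [mem_coe, mem_filter, mem_Ico]
            refine ⟨⟨by omega, by push_cast; omega⟩, ?_⟩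
            have : (p : ℤ) ∣ nrm z := by exact_mod_cast hz3
            rw [nrm_cast, hz4] at this
            exact this
          · intro z hz w hw hzw
            rw [mem_coe, mem_filter] at hz hw
            exact Prod.ext hzw (hz.2.trans hw.2.symm)
      _ = _ := by rw [sum_const, hc, smul_eq_mul]
  have hp0 : (0 : ℝ) < p := by exact_mod_cast hp.pos
  have h2 : (#{z ∈ Phi0 ε M | p ∣ nrm z} : ℝ) ≤ (2 * M) * (2 * ((((2 * M) / p : ℕ) : ℝ) + 1)) := by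
    exact_mod_cast h1
  refine h2.trans ?_
  have h3 := @Nat.cast_div_le ℝ _ _ _ (2 * M) p
  push_cast at h3
  have hM : (0 : ℝ) ≤ M := Nat.cast_nonneg _
  calc (2 * (M : ℝ)) * (2 * ((((2 * M) / p : ℕ) : ℝ) + 1)) ≤ (2 * M) * (2 * (2 * M / p + 1)) := by
        apply mul_le_mul_of_nonneg_left _ (by positivity)
        linarith
    _ = 8 * (M : ℝ) ^ 2 / p + 4 * M := by field_simp; ring

theorem card_Phi0 (ε : ℝ) (N : ℕ) (hN : 1 ≤ N) : #(Phi0 ε N) = (2 * N - 1) ^ 2 := by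
  unfold Phi0
  rw [card_product, Int.card_Ioo, Int.card_Ioo]
  have e1 : (⌊(N : ℝ) ^ (1 + ε)⌋ + (N : ℤ) - (⌊(N : ℝ) ^ (1 + ε)⌋ - N) - 1).toNat = 2 * N - 1 := by
    omega
  have e2 : ((N : ℤ) - -(N : ℤ) - 1).toNat = 2 * N - 1 := by omega
  rw [e1, e2]; ring

theorem nrm_le {ε : ℝ} (hε : 0 < ε) {N : ℕ} (hN : 1 ≤ N) {z : ℤ × ℤ} (hz : z ∈ Phi0 ε N) :
    0 < nrm z ∧ (nrm z : ℝ) ≤ 5 * (N : ℝ) ^ (2 + 2 * ε) := by
  have hNR : (1 : ℝ) ≤ N := by exact_mod_cast hN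
  have hN0 : (0 : ℝ) < N := by linarith
  rw [mem_Phi0] at hz
  obtain ⟨⟨h1, h2⟩, h3, h4⟩ := hz
  set A : ℤ := ⌊(N : ℝ) ^ (1 + ε)⌋ with hA
  have hNA : (N : ℝ) ≤ (N : ℝ) ^ (1 + ε) := by
    conv_lhs => rw [← Real.rpow_one (N : ℝ)]
    exact Real.rpow_le_rpow_of_exponent_le hNR (by linarith)
  have hA1 : (N : ℤ) ≤ A := by
    rw [hA]
    apply Int.le_floor.2
    exact_mod_cast hNA
  have hA2 : (A : ℝ) ≤ (N : ℝ) ^ (1 + ε) := Int.floor_le _
  have hz1 : 0 < z.1 := by omega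
  have hz1R : (z.1 : ℝ) ≤ 2 * (N : ℝ) ^ (1 + ε) := by
    have : (z.1 : ℝ) ≤ A + N := by exact_mod_cast h2.le
    linarith
  constructor
  · have h5 : (0 : ℤ) < nrm z := by
      rw [nrm_cast]
      positivity
    exact_mod_cast h5
  · have h5 : (nrm z : ℝ) = (z.1 : ℝ) ^ 2 + (z.2 : ℝ) ^ 2 := by
      have := nrm_cast z
      exact_mod_cast this
    rw [h5]
    have hpow : (N : ℝ) ^ (2 + 2 * ε) = ((N : ℝ) ^ (1 + ε)) ^ 2 := by
      rw [← Real.rpow_natCast, ← Real.rpow_mul hN0.le]; congr 1; push_cast; ring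
    have h6 : (z.1 : ℝ) ^ 2 ≤ (2 * (N : ℝ) ^ (1 + ε)) ^ 2 :=
      pow_le_pow_left₀ (by exact_mod_cast hz1.le) hz1R 2
    have h7 : (z.2 : ℝ) ^ 2 ≤ ((N : ℝ) ^ (1 + ε)) ^ 2 := by
      rw [← sq_abs (z.2 : ℝ)]
      apply pow_le_pow_left₀ (abs_nonneg _)
      have : |(z.2 : ℝ)| ≤ N := by
        rw [abs_le]
        constructor
        · have : (-(N : ℤ)) ≤ z.2 := h3.le
          exact_mod_cast this
        · exact_mod_cast h4.le
      linarith
    rw [hpow]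
    nlinarith

/-- number of large prime factors -/
theorem large_pf {n B : ℕ} (hn : n ≠ 0) : B ^ #{p ∈ n.primeFactors | B < p} ≤ n := by
  calc B ^ #{p ∈ n.primeFactors | B < p} = ∏ p ∈ n.primeFactors with B < p, B := by
        rw [prod_const]
    _ ≤ ∏ p ∈ n.primeFactors with B < p, p := by
        apply prod_le_prod'
        intro p hp
        exact (mem_filter.1 hp).2.le
    _ ≤ ∏ p ∈ n.primeFactors, p := by
        apply prod_le_prod_of_subset_of_one_le' (filter_subset _ _)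
        intro p hp _
        exact (Nat.mem_primeFactors.1 hp).1.one_lt.le
    _ ≤ n := Nat.le_of_dvd (Nat.pos_of_ne_zero hn) (Nat.prod_primeFactors_dvd n)

/-- The large primes seen in the shifted square. -/
noncomputable def PK (ε : ℝ) (K N : ℕ) : Finset ℕ :=
  ((Phi0 ε N).biUnion (fun w => (nrm w).primeFactors)).filter (fun p => K ^ 2 * N ^ 2 < p)

theorem mem_PK {ε : ℝ} {K N p : ℕ} : p ∈ PK ε K N ↔
    (∃ w ∈ Phi0 ε N, p.Prime ∧ p ∣ nrm w ∧ nrm w ≠ 0) ∧ K ^ 2 * N ^ 2 < p := by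
  unfold PK
  simp only [mem_filter, mem_biUnion, Nat.mem_primeFactors]

theorem card_PK {ε : ℝ} (hε : 0 < ε) {K N : ℕ} (hK : 1 ≤ K) (hN : 3 ≤ N) :
    (#(PK ε K N) : ℝ) ≤ 4 * (2 + ε) * (N : ℝ) ^ 2 := by
  classical
  have hNR : (3 : ℝ) ≤ N := by exact_mod_cast hN
  have hpf : ∀ w ∈ Phi0 ε N, (#{p ∈ (nrm w).primeFactors | K ^ 2 * N ^ 2 < p} : ℝ) ≤ 2 + ε := by
    intro w hw
    obtain ⟨h0, h1⟩ := nrm_le hε (by omega) hw
    set r := #{p ∈ (nrm w).primeFactors | K ^ 2 * N ^ 2 < p} with hr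
    have h2 := large_pf (B := K ^ 2 * N ^ 2) h0.ne'
    rw [← hr] at h2
    have h3 : ((N : ℝ) ^ 2) ^ r ≤ (nrm w : ℝ) := by
      have h4 : (N ^ 2) ^ r ≤ nrm w := by
        refine le_trans (Nat.pow_le_pow_left ?_ r) h2
        have : 1 ≤ K ^ 2 := Nat.one_le_pow _ _ hK
        nlinarith [Nat.zero_le (N ^ 2)]
      exact_mod_cast h4
    have h5 : (N : ℝ) ^ ((2 * r : ℝ)) ≤ (N : ℝ) ^ (4 + 2 * ε) := by
      calc (N : ℝ) ^ ((2 * r : ℝ)) = ((N : ℝ) ^ 2) ^ r := by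
            rw [← pow_mul, ← Real.rpow_natCast]; push_cast; rfl
        _ ≤ 5 * (N : ℝ) ^ (2 + 2 * ε) := h3.trans h1
        _ ≤ (N : ℝ) ^ (2 : ℝ) * (N : ℝ) ^ (2 + 2 * ε) := by
            apply mul_le_mul_of_nonneg_right _ (by positivity)
            rw [Real.rpow_two]; nlinarith
        _ = (N : ℝ) ^ (4 + 2 * ε) := by
            rw [← Real.rpow_add (by linarith)]; congr 1; ring
    have h6 : (2 * r : ℝ) ≤ 4 + 2 * ε :=
      (Real.rpow_le_rpow_left_iff (by linarith)).1 h5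
    linarith
  have h1 : PK ε K N ⊆ (Phi0 ε N).biUnion
      (fun w => {p ∈ (nrm w).primeFactors | K ^ 2 * N ^ 2 < p}) := by
    intro p hp
    rw [mem_PK] at hp
    obtain ⟨⟨w, hw, h2⟩, h3⟩ := hp
    rw [mem_biUnion]
    exact ⟨w, hw, mem_filter.2 ⟨Nat.mem_primeFactors.2 h2, h3⟩⟩
  calc (#(PK ε K N) : ℝ) ≤
      ((∑ w ∈ Phi0 ε N, #{p ∈ (nrm w).primeFactors | K ^ 2 * N ^ 2 < p} : ℕ) : ℝ) := by
        exact_mod_cast (card_le_card h1).trans card_biUnion_le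
    _ = ∑ w ∈ Phi0 ε N, (#{p ∈ (nrm w).primeFactors | K ^ 2 * N ^ 2 < p} : ℝ) := by push_cast; rfl
    _ ≤ ∑ w ∈ Phi0 ε N, (2 + ε) := sum_le_sum hpf
    _ = (#(Phi0 ε N) : ℝ) * (2 + ε) := by rw [sum_const, nsmul_eq_mul]
    _ ≤ (4 * (N : ℝ) ^ 2) * (2 + ε) := by
        apply mul_le_mul_of_nonneg_right _ (by linarith)
        rw [card_Phi0 ε N (by omega)]
        have h2 : (2 * N - 1) ^ 2 ≤ 4 * N ^ 2 := by
          calc (2 * N - 1) ^ 2 ≤ (2 * N) ^ 2 := Nat.pow_le_pow_left (by omega) 2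
            _ = 4 * N ^ 2 := by ring
        exact_mod_cast h2
    _ = _ := by ring

end Pool.Agent.Q43.GA
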