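import Pool.Agent.H304R2.EC.RS

set_option autoImplicit false

namespace Pool.Agent.Q43.GA

open Finset

open Pool.Agent.H304R2.EC in
/-- Mertens bound for the primes `≡ 1 mod 4`. -/
theorem mert4 : ∃ C : ℝ, 0 ≤ C ∧ ∀ X : ℕ, 1 ≤ X →
    ∑ p ∈ Icc 1 X with p.Prime ∧ p % 4 = 1, 2 * (Real.log p / p) ≤ Real.log X + C := by
  obtain ⟨C1, h1⟩ := mert_psr
  have hC1 : 0 ≤ C1 := (abs_nonneg _).trans (h1 0)
  refine ⟨C1 + 6, by positivity, fun X hX => ?_⟩
  have hΛ : ∀ d : ℕ, 0 ≤ ArithmeticFunction.vonMangoldt d := fun d =>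
    ArithmeticFunction.vonMangoldt_nonneg
  have hsub : ∑ p ∈ Icc 1 X with p.Prime ∧ p % 4 = 1, 2 * (Real.log p / p) ≤
      ∑ d ∈ Icc 1 X, (ArithmeticFunction.vonMangoldt d / d +
        ArithmeticFunction.vonMangoldt d * psr d / d) := by
    rw [sum_filter]
    apply sum_le_sum
    intro d hd
    have hd1 : 1 ≤ d := (mem_Icc.1 hd).1
    have hd0 : (0 : ℝ) < d := by exact_mod_cast hd1
    split_ifs with hp
    · have h3 : psr d = 1 := by
        unfold psr
        rw [ZMod.χ₄_nat_eq_if_mod_four]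
        have h4 : ¬ d % 2 = 0 := by omega
        rw [if_neg h4, if_pos hp.2]; norm_num
      rw [ArithmeticFunction.vonMangoldt_apply_prime hp.1, h3]
      apply le_of_eq; ring
    · have h3 := abs_le.1 (psr_abs d)
      rw [← add_div]
      apply div_nonneg _ hd0.le
      nlinarith [hΛ d]
  refine hsub.trans ?_
  rw [sum_add_distrib]
  have h3 : ∑ d ∈ Icc 1 X, ArithmeticFunction.vonMangoldt d * psr d / d ≤ C1 :=
    (le_abs_self _).trans (h1 X)
  have h5 := (abs_le.1 (H385.mert_sum X hX)).2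
  linarith

open Pool.Agent.H304R2.EC in
/-- full Mertens upper bound -/
theorem mertAll : ∃ C : ℝ, 0 ≤ C ∧ ∀ X : ℕ, 1 ≤ X →
    ∑ p ∈ Icc 1 X with p.Prime, Real.log p / p ≤ Real.log X + C := by
  refine ⟨6, by norm_num, fun X hX => ?_⟩
  have h5 := (abs_le.1 (H385.mert_sum X hX)).2
  refine le_trans ?_ (by linarith : ∑ d ∈ Icc 1 X, ArithmeticFunction.vonMangoldt d / d ≤ Real.log X + 6)
  rw [sum_filter]
  apply sum_le_sum
  intro d _
  split_ifs with hp
  · rw [ArithmeticFunction.vonMangoldt_apply_prime hp]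
  · exact div_nonneg ArithmeticFunction.vonMangoldt_nonneg (by positivity)

open Pool.Agent.H304R2.EC in
theorem sqrtSum : ∃ C : ℝ, 0 ≤ C ∧ ∀ X : ℕ,
    ∑ p ∈ Icc 1 X with p.Prime, Real.log p / Real.sqrt p ≤ C * Real.sqrt X := by
  obtain ⟨C, hC, h⟩ := MertAbs.lambda_sum
  refine ⟨C, hC, fun X => le_trans ?_ (h X)⟩
  rw [sum_filter]
  apply sum_le_sum
  intro d _
  split_ifs with hp
  · rw [ArithmeticFunction.vonMangoldt_apply_prime hp]
    apply le_of_eq; ring
  · exact mul_nonneg ArithmeticFunction.vonMangoldt_nonneg (by positivity)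

end Pool.Agent.Q43.GA
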