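import Pool.Agent.Q43.GA.Count
import Pool.Agent.Q43.GA.Mert

set_option autoImplicit false

namespace Pool.Agent.Q43.GA

open Finset

/-- number of box elements whose value is divisible by `p ^ 2` -/
theorem count_sq {p : ℕ} (hp : p.Prime) (hp2 : p ≠ 2) (W : ℕ) (hW : ¬ p ∣ W) (a b : ℤ) (M : ℕ) :
    #{m ∈ box a b M | (p : ℤ) ^ 2 ∣ (1 + W * m.1) ^ 2 + (W * m.2) ^ 2} ≤
      3 * (M / (p / 2) + 1) ^ 2 := by
  classical
  have hpi : Prime (p : ℤ) := Nat.prime_iff_prime_int.1 hp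
  have hWc : IsCoprime ((p : ℤ) ^ 2) (W : ℤ) := by
    apply IsCoprime.pow_left
    rw [Int.isCoprime_iff_gcd_eq_one]
    exact_mod_cast (Nat.Prime.coprime_iff_not_dvd hp).2 hW
  set S := {m ∈ box a b M | (p : ℤ) ^ 2 ∣ (1 + W * m.1) ^ 2 + (W * m.2) ^ 2} with hS
  set A := {m ∈ S | (p : ℤ) ∣ W * m.2} with hA
  have hAle : #A ≤ (M / (p / 2) + 1) ^ 2 := by
    apply cellsq hp hp2 a b M A ((filter_subset _ _).trans (filter_subset _ _))
    intro m hm m' hm'
    rw [hA, mem_filter, hS, mem_filter] at hm hm'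
    have key : ∀ n : ℤ × ℤ, ((p : ℤ) ^ 2 ∣ (1 + W * n.1) ^ 2 + (W * n.2) ^ 2) →
        (p : ℤ) ∣ W * n.2 → (p : ℤ) ∣ 1 + W * n.1 := by
      intro n h1 h2
      have h3 : (p : ℤ) ∣ (1 + W * n.1) ^ 2 := by
        have h4 : (p : ℤ) ∣ (1 + W * n.1) ^ 2 + (W * n.2) ^ 2 := (dvd_pow_self _ (by norm_num)).trans h1
        have h5 : (p : ℤ) ∣ (W * n.2) ^ 2 := dvd_pow h2 (by norm_num)
        exact (dvd_add_left h5).1 h4
      exact hpi.dvd_of_dvd_pow h3
    have d1 : (p : ℤ) ∣ m.1 - m'.1 := by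
      apply dvd_of_mulW hp hW
      have := dvd_sub (key m hm.1.2 hm.2) (key m' hm'.1.2 hm'.2)
      have e : (1 + W * m.1 : ℤ) - (1 + W * m'.1) = W * (m.1 - m'.1) := by ring
      rwa [e] at this
    have d2 : (p : ℤ) ∣ m.2 - m'.2 := by
      apply dvd_of_mulW hp hW
      have := dvd_sub hm.2 hm'.2
      have e : (W * m.2 : ℤ) - W * m'.2 = W * (m.2 - m'.2) := by ring
      rwa [e] at this
    exact dvd_add (pow_dvd_pow_of_dvd d1 2) (pow_dvd_pow_of_dvd d2 2)
  by_cases hne : ∃ m0 ∈ S, ¬ (p : ℤ) ∣ W * m0.2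
  · obtain ⟨m0, hm0, hnd⟩ := hne
    set x0 : ℤ := 1 + W * m0.1 with hx0
    set y0 : ℤ := W * m0.2 with hy0
    have hm0' : (p : ℤ) ^ 2 ∣ x0 ^ 2 + y0 ^ 2 := (mem_filter.1 hm0).2
    have hy0c : IsCoprime ((p : ℤ) ^ 2) (y0 ^ 2) := by
      apply IsCoprime.pow
      exact (Prime.coprime_iff_not_dvd hpi).2 hnd
    -- a class
    have hclass : ∀ σ : ℤ, σ ^ 2 = 1 →
        #{m ∈ S | (p : ℤ) ^ 2 ∣ x0 * (W * m.2) - σ * ((1 + W * m.1) * y0)} ≤
          (M / (p / 2) + 1) ^ 2 := by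
      intro σ hσ
      apply cellsq hp hp2 a b M _ ((filter_subset _ _).trans (filter_subset _ _))
      intro m hm m' hm'
      rw [mem_filter] at hm hm'
      have h1 := dvd_sub hm.2 hm'.2
      have e1 : x0 * (W * m.2) - σ * ((1 + W * m.1) * y0) -
          (x0 * (W * m'.2) - σ * ((1 + W * m'.1) * y0)) =
          W * (x0 * (m.2 - m'.2) - σ * ((m.1 - m'.1) * y0)) := by ring
      rw [e1] at h1
      have h2 : (p : ℤ) ^ 2 ∣ x0 * (m.2 - m'.2) - σ * ((m.1 - m'.1) * y0) := hWc.dvd_of_dvd_mul_left h1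
      have h3 : (p : ℤ) ^ 2 ∣ y0 ^ 2 * ((m.1 - m'.1) ^ 2 + (m.2 - m'.2) ^ 2) := by
        have h4 : y0 ^ 2 * ((m.1 - m'.1) ^ 2 + (m.2 - m'.2) ^ 2) =
            (x0 ^ 2 + y0 ^ 2) * (m.2 - m'.2) ^ 2 -
            (x0 * (m.2 - m'.2) - σ * ((m.1 - m'.1) * y0)) *
            (x0 * (m.2 - m'.2) + σ * ((m.1 - m'.1) * y0)) := by
          linear_combination (- (m.1 - m'.1) ^ 2 * y0 ^ 2) * hσ
        rw [h4]
        exact dvd_sub (Dvd.dvd.mul_right hm0' _) (Dvd.dvd.mul_right h2 _)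
      exact hy0c.dvd_of_dvd_mul_left h3
    have hsub : S ⊆ A ∪ ({m ∈ S | (p : ℤ) ^ 2 ∣ x0 * (W * m.2) - 1 * ((1 + W * m.1) * y0)} ∪
        {m ∈ S | (p : ℤ) ^ 2 ∣ x0 * (W * m.2) - (-1) * ((1 + W * m.1) * y0)}) := by
      intro m hm
      by_cases hmA : (p : ℤ) ∣ W * m.2
      · exact mem_union_left _ (mem_filter.2 ⟨hm, hmA⟩)
      · apply mem_union_right
        rw [mem_union]
        have hm2 : (p : ℤ) ^ 2 ∣ (1 + W * m.1) ^ 2 + (W * m.2) ^ 2 := (mem_filter.1 hm).2
        set x : ℤ := 1 + W * m.1 with hx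
        set y : ℤ := W * m.2 with hy
        have hprod : (p : ℤ) ^ 2 ∣ (x0 * y - 1 * (x * y0)) * (x0 * y - (-1) * (x * y0)) := by
          have e : (x0 * y - 1 * (x * y0)) * (x0 * y - (-1) * (x * y0)) =
              (x0 ^ 2 + y0 ^ 2) * y ^ 2 - (x ^ 2 + y ^ 2) * y0 ^ 2 := by ring
          rw [e]
          exact dvd_sub (Dvd.dvd.mul_right hm0' _) (Dvd.dvd.mul_right hm2 _)
        by_cases h1 : (p : ℤ) ∣ x0 * y - 1 * (x * y0)
        · by_cases h2 : (p : ℤ) ∣ x0 * y - (-1) * (x * y0)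
          · exfalso
            have h3 := dvd_add h1 h2
            have e : x0 * y - 1 * (x * y0) + (x0 * y - (-1) * (x * y0)) = 2 * (x0 * y) := by ring
            rw [e] at h3
            have h4 : (p : ℤ) ∣ x0 * y := by
              rcases hpi.dvd_or_dvd h3 with h | h
              · exfalso
                have h5 : p ∣ 2 := by exact_mod_cast h
                have := (Nat.prime_dvd_prime_iff_eq hp Nat.prime_two).1 h5
                exact hp2 this
              · exact h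
            rcases hpi.dvd_or_dvd h4 with h | h
            · apply hnd
              have h5 : (p : ℤ) ∣ y0 ^ 2 := by
                have h6 : (p : ℤ) ∣ x0 ^ 2 + y0 ^ 2 := (dvd_pow_self _ (by norm_num)).trans hm0'
                exact (dvd_add_right (dvd_pow h (by norm_num))).1 h6
              exact hpi.dvd_of_dvd_pow h5
            · exact hmA h
          · left
            refine mem_filter.2 ⟨hm, ?_⟩
            have hc : IsCoprime ((p : ℤ) ^ 2) (x0 * y - (-1) * (x * y0)) :=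
              IsCoprime.pow_left ((Prime.coprime_iff_not_dvd hpi).2 h2)
            exact hc.dvd_of_dvd_mul_right hprod
        · right
          refine mem_filter.2 ⟨hm, ?_⟩
          have hc : IsCoprime ((p : ℤ) ^ 2) (x0 * y - 1 * (x * y0)) :=
            IsCoprime.pow_left ((Prime.coprime_iff_not_dvd hpi).2 h1)
          exact hc.dvd_of_dvd_mul_left hprod
    have c1 := hclass 1 (by norm_num)
    have c2 := hclass (-1) (by norm_num)
    have c3 := (card_le_card hsub).trans (card_union_le _ _)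
    have c4 := card_union_le {m ∈ S | (p : ℤ) ^ 2 ∣ x0 * (W * m.2) - 1 * ((1 + W * m.1) * y0)}
        {m ∈ S | (p : ℤ) ^ 2 ∣ x0 * (W * m.2) - (-1) * ((1 + W * m.1) * y0)}
    omega
  · push Not at hne
    have : S ⊆ A := fun m hm => mem_filter.2 ⟨hm, hne m hm⟩
    have := card_le_card this
    omega

/-- The value at a box element. -/
def val (W : ℕ) (m : ℤ × ℤ) : ℕ := ((1 + W * m.1) ^ 2 + (W * m.2) ^ 2).natAbs

theorem dvd_val {W n : ℕ} {m : ℤ × ℤ} :
    n ∣ val W m ↔ (n : ℤ) ∣ (1 + W * m.1) ^ 2 + (W * m.2) ^ 2 := by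
  unfold val
  rw [← Int.natCast_dvd]

noncomputable def PP (T X : ℕ) : Finset ℕ := {p ∈ Icc 1 X | p.Prime ∧ T < p}

theorem mem_PP {T X p : ℕ} : p ∈ PP T X ↔ p ≤ X ∧ p.Prime ∧ T < p := by
  unfold PP
  rw [mem_filter, mem_Icc]
  exact ⟨fun h => ⟨h.1.2, h.2⟩, fun h => ⟨⟨h.2.1.one_lt.le, h.1⟩, h.2⟩⟩

theorem sum_bound : ∃ C : ℝ, 0 ≤ C ∧ ∀ (T X W M : ℕ) (a b : ℤ), 2 ≤ T → 1 ≤ X →
    (∀ p : ℕ, p.Prime → T < p → ¬ p ∣ W) →
    ∑ p ∈ PP T X, Real.log p * (#{m ∈ box a b M | p ∣ val W m} : ℝ) ≤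
      (M : ℝ) ^ 2 * (1 + 1 / T) * (Real.log X + C) + 8 * C * M * Real.sqrt X +
        9 * Real.log 4 * X + 2 * M * (Real.log X + C) := by
  obtain ⟨C1, hC1, h1⟩ := mert4
  obtain ⟨C2, hC2, h2⟩ := mertAll
  obtain ⟨C3, hC3, h3⟩ := sqrtSum
  set C := max C1 (max C2 C3) with hC
  have hC0 : 0 ≤ C := hC1.trans (le_max_left _ _)
  have hC1' : C1 ≤ C := le_max_left _ _
  have hC2' : C2 ≤ C := (le_max_left _ _).trans (le_max_right _ _)
  have hC3' : C3 ≤ C := (le_max_right _ _).trans (le_max_right _ _)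
  refine ⟨C, hC0, fun T X W M a b hT hX hW => ?_⟩
  have hT0 : (0 : ℝ) < T := by exact_mod_cast (by omega : 0 < T)
  have hterm : ∀ p ∈ PP T X, Real.log p * (#{m ∈ box a b M | p ∣ val W m} : ℝ) ≤
      (if p % 4 = 1 then (M : ℝ) ^ 2 * (2 * (Real.log p / p)) else 0) +
      ((M : ℝ) ^ 2 / T + 2 * M) * (Real.log p / p) + 8 * M * (Real.log p / Real.sqrt p) +
      9 * Real.log p := by
    intro p hp
    rw [mem_PP] at hp
    obtain ⟨hpX, hpp, hTp⟩ := hp
    have hp0 : (0 : ℝ) < p := by exact_mod_cast hpp.pos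
    have hp1 : (1 : ℝ) ≤ p := by exact_mod_cast hpp.one_lt.le
    have hlog : 0 ≤ Real.log p := Real.log_nonneg hp1
    have hsq : 0 < Real.sqrt p := Real.sqrt_pos.2 hp0
    have hsq2 : Real.sqrt p * Real.sqrt p = p := Real.mul_self_sqrt hp0.le
    have hcnt : (#{m ∈ box a b M | p ∣ val W m} : ℝ) =
        #{m ∈ box a b M | (p : ℤ) ∣ (1 + W * m.1) ^ 2 + (W * m.2) ^ 2} := by
      congr 2
      apply filter_congr
      intro m _
      exact dvd_val
    have hM0 : (0 : ℝ) ≤ M := Nat.cast_nonneg _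
    have hodd : p % 2 = 1 := by
      rcases hpp.eq_two_or_odd with h | h
      · omega
      · exact h
    have hmod : p % 4 = 1 ∨ p % 4 = 3 := by omega
    rcases hmod with h4 | h4
    · rw [if_pos h4, hcnt]
      have := mul_le_mul_of_nonneg_left (count1 hpp h4 W (hW p hpp hTp) a b M) hlog
      refine this.trans ?_
      have e : Real.log p * (2 * ((M : ℝ) + 2 * Real.sqrt p) ^ 2 / p) =
          (M : ℝ) ^ 2 * (2 * (Real.log p / p)) + 8 * M * (Real.log p / Real.sqrt p) +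
            8 * Real.log p := by
        have e1 : ((M : ℝ) + 2 * Real.sqrt p) ^ 2 = M ^ 2 + 4 * M * Real.sqrt p + 4 * p := by
          linear_combination 4 * hsq2
        have e2 : (1 : ℝ) / Real.sqrt p = Real.sqrt p / p := by
          rw [div_eq_div_iff hsq.ne' hp0.ne']
          linarith
        rw [e1, div_eq_mul_one_div (Real.log p) (Real.sqrt p), e2]
        field_simp
        ring
      rw [e]
      have : 0 ≤ ((M : ℝ) ^ 2 / T + 2 * M) * (Real.log p / p) := by positivity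
      linarith
    · have hne : ¬ p % 4 = 1 := by omega
      rw [if_neg hne, hcnt]
      have := mul_le_mul_of_nonneg_left (count3 hpp h4 W (hW p hpp hTp) a b M) hlog
      refine this.trans ?_
      have e : Real.log p * ((M : ℝ) / p + 1) ^ 2 =
          (M : ℝ) ^ 2 * (1 / p) * (Real.log p / p) + 2 * M * (Real.log p / p) + Real.log p := by
        field_simp
        ring
      rw [e]
      have h5 : (1 : ℝ) / p ≤ 1 / T := by
        apply one_div_le_one_div_of_le hT0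
        exact_mod_cast hTp.le
      have h6 : (M : ℝ) ^ 2 * (1 / p) * (Real.log p / p) ≤ (M : ℝ) ^ 2 / T * (Real.log p / p) := by
        apply mul_le_mul_of_nonneg_right _ (by positivity)
        have e9 : (M : ℝ) ^ 2 / T = (M : ℝ) ^ 2 * (1 / T) := by ring
        rw [e9]
        exact mul_le_mul_of_nonneg_left h5 (by positivity)
      have h7 : 0 ≤ 8 * (M : ℝ) * (Real.log p / Real.sqrt p) := by positivity
      rw [add_mul]
      linarith
  refine (sum_le_sum hterm).trans ?_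
  rw [sum_add_distrib, sum_add_distrib, sum_add_distrib, ← mul_sum, ← mul_sum, ← mul_sum]
  have hsubP : PP T X ⊆ {p ∈ Icc 1 X | p.Prime} := by
    intro p hp
    rw [mem_PP] at hp
    rw [mem_filter, mem_Icc]
    exact ⟨⟨hp.2.1.one_lt.le, hp.1⟩, hp.2.1⟩
  have s1 : ∑ p ∈ PP T X, (if p % 4 = 1 then (M : ℝ) ^ 2 * (2 * (Real.log p / p)) else 0) ≤
      (M : ℝ) ^ 2 * (Real.log X + C) := by
    rw [← sum_filter, ← mul_sum]
    apply mul_le_mul_of_nonneg_left _ (by positivity)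
    calc ∑ p ∈ PP T X with p % 4 = 1, 2 * (Real.log p / p) ≤
        ∑ p ∈ Icc 1 X with p.Prime ∧ p % 4 = 1, 2 * (Real.log p / p) := by
          apply sum_le_sum_of_subset_of_nonneg
          · intro p hp
            rw [mem_filter, mem_PP] at hp
            rw [mem_filter, mem_Icc]
            exact ⟨⟨hp.1.2.1.one_lt.le, hp.1.1⟩, hp.1.2.1, hp.2⟩
          · intro p _ _
            have := Real.log_natCast_nonneg p
            positivity
      _ ≤ Real.log X + C1 := h1 X hX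
      _ ≤ Real.log X + C := by linarith
  have s2 : ∑ p ∈ PP T X, Real.log p / p ≤ Real.log X + C := by
    calc ∑ p ∈ PP T X, Real.log p / p ≤ ∑ p ∈ Icc 1 X with p.Prime, Real.log p / p := by
          apply sum_le_sum_of_subset_of_nonneg hsubP
          intro p _ _
          have := Real.log_natCast_nonneg p
          positivity
      _ ≤ Real.log X + C2 := h2 X hX
      _ ≤ _ := by linarith
  have s3 : ∑ p ∈ PP T X, Real.log p / Real.sqrt p ≤ C * Real.sqrt X := by
    calc ∑ p ∈ PP T X, Real.log p / Real.sqrt p ≤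
        ∑ p ∈ Icc 1 X with p.Prime, Real.log p / Real.sqrt p := by
          apply sum_le_sum_of_subset_of_nonneg hsubP
          intro p _ _
          have := Real.log_natCast_nonneg p
          positivity
      _ ≤ C3 * Real.sqrt X := h3 X
      _ ≤ C * Real.sqrt X := mul_le_mul_of_nonneg_right hC3' (Real.sqrt_nonneg _)
  have s4 : ∑ p ∈ PP T X, Real.log p ≤ Real.log 4 * X := by
    have ht := Chebyshev.theta_le_log4_mul_x (x := (X : ℝ)) (by positivity)
    rw [Chebyshev.theta_eq_sum_Icc, Nat.floor_natCast] at ht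
    refine le_trans ?_ ht
    apply sum_le_sum_of_subset_of_nonneg
    · intro p hp
      rw [mem_PP] at hp
      rw [mem_filter, mem_Icc]
      exact ⟨⟨Nat.zero_le _, hp.1⟩, hp.2.1⟩
    · intro p _ _
      exact Real.log_natCast_nonneg p
  have hM0 : (0 : ℝ) ≤ M := Nat.cast_nonneg _
  have t2 : ((M : ℝ) ^ 2 / T + 2 * M) * ∑ p ∈ PP T X, Real.log p / p ≤
      ((M : ℝ) ^ 2 / T + 2 * M) * (Real.log X + C) := mul_le_mul_of_nonneg_left s2 (by positivity)
  have t3 : 8 * (M : ℝ) * ∑ p ∈ PP T X, Real.log p / Real.sqrt p ≤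
      8 * (M : ℝ) * (C * Real.sqrt X) := mul_le_mul_of_nonneg_left s3 (by positivity)
  have t4 : 9 * ∑ p ∈ PP T X, Real.log p ≤ 9 * (Real.log 4 * X) :=
    mul_le_mul_of_nonneg_left s4 (by norm_num)
  have e : (M : ℝ) ^ 2 * (1 + 1 / T) * (Real.log X + C) + 8 * C * M * Real.sqrt X +
        9 * Real.log 4 * X + 2 * M * (Real.log X + C) =
      (M : ℝ) ^ 2 * (Real.log X + C) + ((M : ℝ) ^ 2 / T + 2 * M) * (Real.log X + C) +
        8 * (M : ℝ) * (C * Real.sqrt X) + 9 * (Real.log 4 * X) := by ring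
  rw [e]
  linarith

end Pool.Agent.Q43.GA
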