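import Pool.Agent.Q43.GA.Big

set_option autoImplicit false

namespace Pool.Agent.Q43.GA

open Finset Filter

/-- The shifted square, as pairs of integers. -/
noncomputable def Phi0 (ε : ℝ) (N : ℕ) : Finset (ℤ × ℤ) :=
  Ioo (⌊(N : ℝ) ^ (1 + ε)⌋ - (N : ℤ)) (⌊(N : ℝ) ^ (1 + ε)⌋ + N) ×ˢ Ioo (-(N : ℤ)) N

theorem mem_Phi0 {ε : ℝ} {N : ℕ} {z : ℤ × ℤ} : z ∈ Phi0 ε N ↔
    (⌊(N : ℝ) ^ (1 + ε)⌋ - (N : ℤ) < z.1 ∧ z.1 < ⌊(N : ℝ) ^ (1 + ε)⌋ + N) ∧
    (-(N : ℤ) < z.2 ∧ z.2 < N) := by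
  unfold Phi0
  rw [mem_product, mem_Ioo, mem_Ioo]

theorem ev_nat_log (c : ℝ) : ∀ᶠ N : ℕ in atTop, c ≤ Real.log N :=
  (Real.tendsto_log_atTop.comp tendsto_natCast_atTop_atTop).eventually_ge_atTop c

theorem ev_pi (δ : ℝ) (hδ : 0 < δ) (K : ℕ) (hK : 1 ≤ K) :
    ∀ᶠ N : ℕ in atTop, (Nat.primeCounting (K ^ 2 * N ^ 2) : ℝ) ≤ δ * (N : ℝ) ^ 2 := by
  have h1 := Chebyshev.eventually_primeCounting_le (ε := 1) one_pos
  have ht : Tendsto (fun N : ℕ => ((K ^ 2 * N ^ 2 : ℕ) : ℝ)) atTop atTop := by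
    apply tendsto_natCast_atTop_atTop.comp
    apply tendsto_atTop_mono (fun N => ?_) tendsto_id
    show N ≤ K ^ 2 * N ^ 2
    have : 1 ≤ K ^ 2 := Nat.one_le_pow _ _ hK
    nlinarith [Nat.le_self_pow (two_ne_zero) N, Nat.zero_le N]
  have h2 := ht.eventually h1
  have hKR : (1 : ℝ) ≤ K := by exact_mod_cast hK
  filter_upwards [h2, ev_nat_log ((Real.log 4 + 1) * K ^ 2 / δ + 1), eventually_ge_atTop 1] with
    N hN hl hN1
  rw [Nat.floor_natCast] at hN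
  refine hN.trans ?_
  have hNR : (1 : ℝ) ≤ N := by exact_mod_cast hN1
  have hl4 : 0 < Real.log 4 := Real.log_pos (by norm_num)
  have hlX : Real.log N ≤ Real.log ((K ^ 2 * N ^ 2 : ℕ) : ℝ) := by
    apply Real.log_le_log (by linarith)
    push_cast
    nlinarith [mul_le_mul hKR hNR (by norm_num) (by linarith)]
  have hpos : 0 < (Real.log 4 + 1) * K ^ 2 / δ := by positivity
  have hlX0 : 0 < Real.log ((K ^ 2 * N ^ 2 : ℕ) : ℝ) := by linarith
  rw [div_le_iff₀ hlX0]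
  have h3 : (Real.log 4 + 1) * K ^ 2 ≤ δ * Real.log ((K ^ 2 * N ^ 2 : ℕ) : ℝ) := by
    have : (Real.log 4 + 1) * K ^ 2 / δ ≤ Real.log ((K ^ 2 * N ^ 2 : ℕ) : ℝ) := by linarith
    rw [div_le_iff₀ hδ] at this
    linarith
  calc (Real.log 4 + 1) * ((K ^ 2 * N ^ 2 : ℕ) : ℝ) = ((Real.log 4 + 1) * K ^ 2) * (N : ℝ) ^ 2 := by
        push_cast; ring
    _ ≤ (δ * Real.log ((K ^ 2 * N ^ 2 : ℕ) : ℝ)) * (N : ℝ) ^ 2 :=
        mul_le_mul_of_nonneg_right h3 (by positivity)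
    _ = _ := by ring

/-- The pure inequality behind the key lemma. -/
theorem ineq1 (ε T l C lK W Kc M : ℝ) (hε : 0 < ε) (hT : 2 ≤ T) (hC : 0 ≤ C) (hlK : 0 ≤ lK)
    (hKc : 0 ≤ Kc) (hM : 0 ≤ M) (hl0 : 0 ≤ l)
    (hlM : l ≤ M) (hl1 : 2 * lK + C ≤ l)
    (hl2 : 2 * (2 * lK + C) + 8 * C * Kc * W + 9 * Real.log 4 * Kc ^ 2 * W ^ 2 + 6 + 8 ≤ 4 / T * l)
    (N : ℝ) (hN : 0 ≤ N) (hNM : N ≤ W * M) :
    M ^ 2 * (1 + 1 / T) * ((2 * lK + 2 * l) + C) + 8 * C * M * (Kc * N) +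
      9 * Real.log 4 * (Kc ^ 2 * N ^ 2) + 2 * M * ((2 * lK + 2 * l) + C) ≤
      (M ^ 2 * (1 / (1 + ε) + 3 / T)) * ((2 + 2 * ε) * l - 2) := by
  have hT0 : 0 < T := by linarith
  have hl4 : 0 < Real.log 4 := Real.log_pos (by norm_num)
  have hM2 : 0 ≤ M ^ 2 := by positivity
  have h1T : 1 / T ≤ 1 := by rw [div_le_one hT0]; linarith
  have h1T0 : 0 < 1 / T := by positivity
  -- first term
  have a1 : (1 + 1 / T) * ((2 * lK + 2 * l) + C) ≤ (1 + 1 / T) * (2 * l) + 2 * (2 * lK + C) := by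
    nlinarith
  have a2 : 8 * C * M * (Kc * N) ≤ M ^ 2 * (8 * C * Kc * W) := by
    have : 8 * C * M * (Kc * N) ≤ 8 * C * M * (Kc * (W * M)) :=
      mul_le_mul_of_nonneg_left (mul_le_mul_of_nonneg_left hNM hKc) (by positivity)
    linarith
  have a3 : 9 * Real.log 4 * (Kc ^ 2 * N ^ 2) ≤ M ^ 2 * (9 * Real.log 4 * Kc ^ 2 * W ^ 2) := by
    have h : N ^ 2 ≤ (W * M) ^ 2 := pow_le_pow_left₀ hN hNM 2
    have : 9 * Real.log 4 * (Kc ^ 2 * N ^ 2) ≤ 9 * Real.log 4 * (Kc ^ 2 * (W * M) ^ 2) :=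
      mul_le_mul_of_nonneg_left (mul_le_mul_of_nonneg_left h (by positivity)) (by positivity)
    linarith
  have a4 : 2 * M * ((2 * lK + 2 * l) + C) ≤ M ^ 2 * 6 := by
    have h : (2 * lK + 2 * l) + C ≤ 3 * M := by linarith
    have : 2 * M * ((2 * lK + 2 * l) + C) ≤ 2 * M * (3 * M) :=
      mul_le_mul_of_nonneg_left h (by positivity)
    linarith
  have a5 : (1 / (1 + ε) + 3 / T) * ((2 + 2 * ε) * l - 2) ≥ 2 * l + 6 * (1 / T) * l - 8 := by
    have e1 : (1 / (1 + ε)) * ((2 + 2 * ε) * l - 2) = 2 * l - 2 * (1 / (1 + ε)) := by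
      field_simp
    have e2 : 1 / (1 + ε) ≤ 1 := by rw [div_le_one (by linarith)]; linarith
    have e3 : (3 / T) * ((2 + 2 * ε) * l - 2) = 6 * (1 / T) * l + 6 * (1 / T) * (ε * l) - 6 * (1 / T) := by
      ring
    have e4 : 0 ≤ 6 * (1 / T) * (ε * l) := by positivity
    rw [add_mul, e1, e3]
    linarith
  have a6 : (1 + 1 / T) * (2 * l) + 2 * (2 * lK + C) + 8 * C * Kc * W +
      9 * Real.log 4 * Kc ^ 2 * W ^ 2 + 6 ≤ 2 * l + 6 * (1 / T) * l - 8 := by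
    have e : 4 / T * l = 4 * (1 / T) * l := by ring
    rw [e] at hl2
    nlinarith
  have a7 := mul_le_mul_of_nonneg_left (a6.trans a5.le) hM2
  have a8 := mul_le_mul_of_nonneg_left a1 hM2
  nlinarith

/-- **Key lemma**: a positive proportion (independent of `K`) of the shifted square has norm divisible
by a prime larger than `K² N²`. -/
theorem key (ε : ℝ) (hε : 0 < ε) : ∃ c : ℝ, 0 < c ∧ ∀ K : ℕ, 1 ≤ K → ∀ᶠ N : ℕ in atTop,
    ∃ S : Finset (ℤ × ℤ), S ⊆ Phi0 ε N ∧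
      (∀ z ∈ S, ∃ p : ℕ, p.Prime ∧ K ^ 2 * N ^ 2 < p ∧ p ∣ (z.1 ^ 2 + z.2 ^ 2).natAbs) ∧
      c * (N : ℝ) ^ 2 ≤ #S := by
  classical
  set T : ℕ := ⌈116 * (1 + ε) / ε⌉₊ + 2 with hTdef
  have hT2 : 2 ≤ T := by omega
  have hTge : 116 * (1 + ε) / ε ≤ T := by
    rw [hTdef]; push_cast
    have := Nat.le_ceil (116 * (1 + ε) / ε)
    linarith
  have hT0 : (0 : ℝ) < T := by exact_mod_cast (by omega : 0 < T)
  set W : ℕ := T.factorial with hW
  have hW0 : 0 < W := Nat.factorial_pos _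
  have hWR : (0 : ℝ) < W := by exact_mod_cast hW0
  have hW1 : ∀ p : ℕ, p.Prime → p ≤ T → p ∣ W := fun p hp h => (hp.dvd_factorial).2 h
  have hW2 : ∀ p : ℕ, p.Prime → T < p → ¬ p ∣ W := fun p hp h h2 => by
    have := (hp.dvd_factorial).1 h2
    omega
  obtain ⟨C, hC, hsum⟩ := sum_bound
  refine ⟨ε / (2 * (1 + ε)) / W ^ 2, by positivity, fun K hK => ?_⟩
  have hKR : (1 : ℝ) ≤ K := by exact_mod_cast hK
  have hlK : 0 ≤ Real.log K := Real.log_nonneg hKR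
  set Q0 : ℝ := 2 * (2 * Real.log K + C) + 8 * C * K * W + 9 * Real.log 4 * K ^ 2 * W ^ 2 + 6 + 8
    with hQ0
  have F1 : ∀ᶠ N : ℕ in atTop, (4 : ℝ) ≤ (N : ℝ) ^ ε :=
    ((tendsto_rpow_atTop hε).comp tendsto_natCast_atTop_atTop).eventually_ge_atTop 4
  have F2 := ev_nat_log (Q0 * T / 4)
  have F3 := ev_nat_log (2 * Real.log K + C)
  have F4 := ev_pi (1 / (6 * T * W ^ 2)) (by positivity) K hK
  have F5 := ev_nat_log 2
  have F6 : ∀ᶠ N : ℕ in atTop, Real.log (N : ℝ) ≤ (N : ℝ) / W := by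
    have h1 := Real.isLittleO_log_id_atTop.bound (show (0 : ℝ) < 1 / W by positivity)
    have h2 := tendsto_natCast_atTop_atTop (R := ℝ) |>.eventually h1
    filter_upwards [h2, eventually_ge_atTop 1] with N hN hN1
    have hNR : (1 : ℝ) ≤ N := by exact_mod_cast hN1
    rw [Real.norm_eq_abs, abs_of_nonneg (Real.log_nonneg hNR), id, Real.norm_eq_abs,
      abs_of_nonneg (by positivity)] at hN
    calc Real.log (N : ℝ) ≤ 1 / W * N := hN
      _ = N / W := by ring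
  filter_upwards [F1, F2, F3, F4, F5, F6, eventually_ge_atTop (W + 2), eventually_ge_atTop T] with
    N f1 f2 f3 f4 f5 f6 f7 f8
  have hN0 : (0 : ℝ) < N := by exact_mod_cast (by omega : 0 < N)
  have hN1 : (1 : ℝ) ≤ N := by exact_mod_cast (by omega : 1 ≤ N)
  set A : ℤ := ⌊(N : ℝ) ^ (1 + ε)⌋ with hA
  set l := Real.log (N : ℝ) with hl
  set X := K ^ 2 * N ^ 2 with hX
  set M : ℕ := (2 * N - 2) / W with hM
  set a : ℤ := (A - N) / W + 1 with ha
  set b : ℤ := (-(N : ℤ)) / W + 1 with hb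
  have hWZ : (0 : ℤ) < W := by exact_mod_cast hW0
  have hWM : W * M ≤ 2 * N - 2 := Nat.mul_div_le _ _
  have hNWM : (N : ℝ) ≤ W * M := by
    have h1 : 2 * N - 2 < W * (M + 1) := Nat.lt_mul_div_succ _ hW0
    have h2 : N ≤ W * M := by
      rw [mul_add] at h1
      omega
    exact_mod_cast h2
  have ha1 : A - N < W * a := by
    rw [ha]
    have := Int.lt_ediv_add_one_mul_self (A - N) hWZ
    linarith
  have ha2 : W * a ≤ A - N + W := by
    rw [ha]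
    have := Int.ediv_mul_le (A - N) hWZ.ne'
    linarith
  have hb1 : -(N : ℤ) < W * b := by
    rw [hb]
    have := Int.lt_ediv_add_one_mul_self (-(N : ℤ)) hWZ
    linarith
  have hb2 : W * b ≤ -(N : ℤ) + W := by
    rw [hb]
    have := Int.ediv_mul_le (-(N : ℤ)) hWZ.ne'
    linarith
  have hWMZ : (W : ℤ) * M ≤ 2 * N - 2 := by
    have h1 : ((W * M : ℕ) : ℤ) ≤ ((2 * N - 2 : ℕ) : ℤ) := by exact_mod_cast hWM
    push_cast [Nat.cast_sub (by omega : 2 ≤ 2 * N)] at h1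
    exact h1
  -- size of the values
  have hAr : (N : ℝ) ^ (1 + ε) - 1 < A := Int.sub_one_lt_floor _
  have hpow : (N : ℝ) ^ (1 + ε) = N * (N : ℝ) ^ ε := by
    rw [Real.rpow_add hN0, Real.rpow_one]
  have hAN : (N : ℝ) ^ (1 + ε) / 2 ≤ (A : ℝ) - N := by
    have h1 : N * 4 ≤ N * (N : ℝ) ^ ε := mul_le_mul_of_nonneg_left f1 hN0.le
    linarith
  have hbox : ∀ m ∈ box a b M, (A - N < 1 + W * m.1 ∧ 1 + W * m.1 < A + N) ∧
      (-(N : ℤ) < W * m.2 ∧ W * m.2 < N) := by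
    intro m hm
    rw [mem_box] at hm
    obtain ⟨⟨h1, h2⟩, h3, h4⟩ := hm
    have e1 : (W : ℤ) * a ≤ W * m.1 := mul_le_mul_of_nonneg_left h1 hWZ.le
    have e2 : (W : ℤ) * m.1 ≤ W * (a + M - 1) := mul_le_mul_of_nonneg_left (by omega) hWZ.le
    have e3 : (W : ℤ) * b ≤ W * m.2 := mul_le_mul_of_nonneg_left h3 hWZ.le
    have e4 : (W : ℤ) * m.2 ≤ W * (b + M - 1) := mul_le_mul_of_nonneg_left (by omega) hWZ.le
    have e5 : (W : ℤ) * (a + M - 1) = W * a + W * M - W := by ring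
    have e6 : (W : ℤ) * (b + M - 1) = W * b + W * M - W := by ring
    rw [e5] at e2
    rw [e6] at e4
    refine ⟨⟨by linarith, by linarith⟩, by linarith, by linarith⟩
  set Λ : ℝ := (2 + 2 * ε) * l - 2 with hΛ
  have hΛ0 : 0 < Λ := by
    rw [hΛ]; nlinarith
  have hval : ∀ m ∈ box a b M, Λ ≤ Real.log (val W m) := by
    intro m hm
    have h1 := (hbox m hm).1.1
    have hANpos : (0 : ℝ) < (A : ℝ) - N := by
      have : 0 < (N : ℝ) ^ (1 + ε) / 2 := by positivity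
      linarith
    have h2 : ((A : ℝ) - N) ^ 2 ≤ (val W m : ℝ) := by
      unfold val
      rw [Nat.cast_natAbs]
      have h3 : |(1 + (W : ℤ) * m.1) ^ 2 + (W * m.2) ^ 2| = (1 + (W : ℤ) * m.1) ^ 2 + (W * m.2) ^ 2 :=
        abs_of_nonneg (by positivity)
      rw [h3]
      push_cast
      have h4 : (A : ℝ) - N ≤ 1 + W * m.1 := by exact_mod_cast h1.le
      have h5 := pow_le_pow_left₀ hANpos.le h4 2
      have h6 : (0 : ℝ) ≤ ((W : ℝ) * m.2) ^ 2 := by positivity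
      linarith
    have h3 : 2 * Real.log ((A : ℝ) - N) ≤ Real.log (val W m) := by
      have := Real.log_le_log (by positivity) h2
      rw [Real.log_pow] at this
      exact_mod_cast this
    have h4 : Real.log ((N : ℝ) ^ (1 + ε) / 2) ≤ Real.log ((A : ℝ) - N) :=
      Real.log_le_log (by positivity) hAN
    rw [Real.log_div (by positivity) (by norm_num), Real.log_rpow hN0] at h4
    have h5 : Real.log 2 ≤ 1 := by have := Real.log_two_lt_d9; linarith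
    rw [hΛ]
    linarith
  have hTX : T ≤ X := by
    rw [hX]
    have h1 : 1 ≤ K ^ 2 := Nat.one_le_pow _ _ hK
    have h2 : N ≤ N ^ 2 := Nat.le_self_pow two_ne_zero N
    nlinarith
  have hSb := hsum T X W M a b hT2 (by omega) hW2
  have hbig := big_count T X W M a b hT2 hTX hW1 hW2 Λ hΛ0 hval _ hSb
  refine ⟨({m ∈ box a b M | ∃ p : ℕ, p.Prime ∧ X < p ∧ p ∣ val W m}).image
    (fun m => (1 + W * m.1, W * m.2)), ?_, ?_, ?_⟩
  · intro z hz
    rw [mem_image] at hz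
    obtain ⟨m, hm, rfl⟩ := hz
    have := hbox m (mem_filter.1 hm).1
    rw [mem_Phi0]
    exact this
  · intro z hz
    rw [mem_image] at hz
    obtain ⟨m, hm, rfl⟩ := hz
    exact (mem_filter.1 hm).2
  · rw [card_image_of_injective]
    · refine le_trans ?_ hbig
      have hlX : Real.log (X : ℝ) = 2 * Real.log K + 2 * l := by
        rw [hX]; push_cast
        rw [Real.log_mul (by positivity) (by positivity), Real.log_pow, Real.log_pow]
        push_cast; ring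
      have hsX : Real.sqrt (X : ℝ) = K * N := by
        rw [hX]; push_cast
        rw [← mul_pow]
        exact Real.sqrt_sq (by positivity)
      have hXr : (X : ℝ) = (K : ℝ) ^ 2 * N ^ 2 := by rw [hX]; push_cast; ring
      rw [hlX, hsX, hXr]
      have hMl : l ≤ (M : ℝ) := by
        refine f6.trans ?_
        rw [div_le_iff₀ hWR]
        linarith
      have hineq := ineq1 ε T l C (Real.log K) W K M hε (by exact_mod_cast hT2) hC hlK
        (by positivity) (Nat.cast_nonneg _) (by linarith) hMl f3 (by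
          have : Q0 * T / 4 ≤ l := f2
          rw [div_le_iff₀ (by norm_num)] at this
          have e : 4 / (T : ℝ) * l = l * 4 / T := by ring
          rw [e, le_div_iff₀ hT0]
          exact this) N hN0.le hNWM
      have hdiv : ((M : ℝ) ^ 2 * (1 + 1 / T) * ((2 * Real.log K + 2 * l) + C) +
          8 * C * M * (K * N) + 9 * Real.log 4 * (K ^ 2 * N ^ 2) +
          2 * M * ((2 * Real.log K + 2 * l) + C)) / Λ ≤ (M : ℝ) ^ 2 * (1 / (1 + ε) + 3 / T) := by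
        rw [div_le_iff₀ hΛ0]
        exact hineq
      have hpi : 6 * (Nat.primeCounting X : ℝ) ≤ (M : ℝ) ^ 2 / T := by
        have h1 : (N : ℝ) ^ 2 ≤ (W * M) ^ 2 := pow_le_pow_left₀ hN0.le hNWM 2
        calc 6 * (Nat.primeCounting X : ℝ) ≤ 6 * (1 / (6 * T * W ^ 2) * (N : ℝ) ^ 2) := by linarith
          _ ≤ 6 * (1 / (6 * T * W ^ 2) * (W * M) ^ 2) := by
              apply mul_le_mul_of_nonneg_left _ (by norm_num)
              exact mul_le_mul_of_nonneg_left h1 (by positivity)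
          _ = (M : ℝ) ^ 2 / T := by field_simp
      have h58 : 58 / (T : ℝ) ≤ ε / (2 * (1 + ε)) := by
        rw [div_le_iff₀ hε] at hTge
        rw [div_le_div_iff₀ hT0 (by positivity)]
        linarith
      have hρ : 1 - 1 / (1 + ε) = ε / (1 + ε) := by field_simp; ring
      have hhalf : ε / (1 + ε) = 2 * (ε / (2 * (1 + ε))) := by field_simp
      have hlow : ε / (2 * (1 + ε)) * (M : ℝ) ^ 2 ≤
          (M : ℝ) ^ 2 - 54 * (M : ℝ) ^ 2 / T - (M : ℝ) ^ 2 / T -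
            (M : ℝ) ^ 2 * (1 / (1 + ε) + 3 / T) := by
        have e : (M : ℝ) ^ 2 - 54 * (M : ℝ) ^ 2 / T - (M : ℝ) ^ 2 / T -
            (M : ℝ) ^ 2 * (1 / (1 + ε) + 3 / T) =
            (M : ℝ) ^ 2 * ((1 - 1 / (1 + ε)) - 58 / T) := by ring
        rw [e, hρ, hhalf]
        have hM2 : (0 : ℝ) ≤ (M : ℝ) ^ 2 := by positivity
        have hM3 := mul_nonneg hM2 (sub_nonneg.2 h58)
        linarith
      have hcN : ε / (2 * (1 + ε)) / W ^ 2 * (N : ℝ) ^ 2 ≤ ε / (2 * (1 + ε)) * (M : ℝ) ^ 2 := by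
        have h1 : (N : ℝ) ^ 2 ≤ (W * M) ^ 2 := pow_le_pow_left₀ hN0.le hNWM 2
        calc ε / (2 * (1 + ε)) / W ^ 2 * (N : ℝ) ^ 2 ≤ ε / (2 * (1 + ε)) / W ^ 2 * (W * M) ^ 2 :=
              mul_le_mul_of_nonneg_left h1 (by positivity)
          _ = _ := by field_simp
      linarith
    · intro m m' h
      simp only [Prod.mk.injEq] at h
      have h1 : (W : ℤ) * m.1 = W * m'.1 := by linarith [h.1]
      exact Prod.ext (mul_left_cancel₀ hWZ.ne' h1) (mul_left_cancel₀ hWZ.ne' h.2)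

end Pool.Agent.Q43.GA
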